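import Pool.Agent.H45.UZ.TarP

/-!
# Module POT of the board uz_modules: transport of closed objects
-/

set_option linter.unusedVariables false

open Ordinal Order Set
open scoped ZFSet

namespace SE.UZ

open SF

namespace H99POT

theorem im_congr {π π' s : V} (h : ∀ i ∈ s, app π i = app π' i) : im π s = im π' s := by
  apply ZFSet.ext
  intro z
  constructor
  · intro hz
    obtain ⟨i, hi, e⟩ := mem_imS.1 hz
    exact mem_imS.2 ⟨i, hi, by rw [← e, h i hi]⟩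
  · intro hz
    obtain ⟨i, hi, e⟩ := mem_imS.1 hz
    exact mem_imS.2 ⟨i, hi, by rw [← e, h i hi]⟩

theorem im_mono {π s t : V} (h : s ⊆ t) : im π s ⊆ im π t := by
  intro z hz
  obtain ⟨i, hi, e⟩ := mem_imS.1 hz
  exact mem_imS.2 ⟨i, h hi, e⟩

theorem co_iff {D : Cx} {b : BS} {π ρ ρ' : V} (hl : 3 ≤ b.l) (hi : Isl D b.l b.S π ρ ρ') {i : V}
    (h : i ∈ ρ) : b.Co i ↔ b.Co (app π i) :=
  hi.k i h b.l hl le_rfl

end H99POT

open H99POT in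
theorem pf_POT (hPOA : T_POA) (hQI1 : T_QI1) (hPSJ : T_PSJ) : T_POT := by
  intro D κ hA b hb π B ρ' hB hi hv
  have hSl : Sl b.l b.S := fun k hk => ⟨(hb.sl k hk).1, by have := (hb.sl k hk).2; omega⟩
  have hl3 := hb.l3
  obtain ⟨⟨q1, q2, q3, q4, q5, ⟨q6, q6'⟩, q7⟩, p1, p2, p3, p4⟩ :=
    hQI1 D hA.ok b.l b.S π (b.u B) ρ' hSl hi
  obtain ⟨t1, t2, t3, t4⟩ := hb.tr B hB.o π ρ' hi
  obtain ⟨a1, a2, a3⟩ := hPOA D κ hA b hb B hB
  -- faces of B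
  have face : ∀ C, b.Le C B → C ∈ b.Ob ∧ b.u C ⊆ b.u B ∧ D.N (b.u C) ∧ Tr (b.u C) ∧
      Vws b.S (b.u C) := by
    intro C hC
    obtain ⟨c1, c2, c3⟩ := hb.leO C B hC
    have hcs := hb.cs C c1
    exact ⟨c1, c3, hA.ok.zfc.toZFCm.toZFm.trans _ hA.ok.hN _ hcs.h,
      fun i h => (hcs.c i h).2, fun i h e he hk => hb.rk C c1 i h e he hk⟩
  -- transported faces
  have tf : ∀ C, b.Le C B → b.Le (b.T (rst (b.u C) π) C) (b.T π B) ∧
      b.u (b.T (rst (b.u C) π) C) = im π (b.u C) ∧ b.T (rst (b.u C) π) C ∈ b.Ob ∧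
      Isl D b.l b.S (rst (b.u C) π) (b.u C) (im π (b.u C)) ∧
      (∀ i ∈ b.u C, app (rst (b.u C) π) i = app π i) ∧ im (inv π) (im π (b.u C)) = b.u C := by
    intro C hC
    obtain ⟨f1, f2, f3, f4, f5⟩ := face C hC
    obtain ⟨g1, g2, g3, g4, g5, g6⟩ := p4 (b.u C) f3 f2 f4 f5
    have h1 := hb.tr C f1 (rst (b.u C) π) (im π (b.u C)) g1
    exact ⟨t4 C hC, h1.2.1, h1.1, g1, g2, g4⟩
  have hOb : b.Obs (b.T π B) := by
    refine ⟨t1, ?_⟩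
    rw [t2]
    intro j' hj' hjc'
    obtain ⟨hj, hjj⟩ := p2 j' hj'
    obtain ⟨j, hje⟩ : ∃ j, j = app (inv π) j' := ⟨_, rfl⟩
    rw [← hje] at hj hjj
    subst hjj
    have hjc : b.Co j := (co_iff hl3 hi hj).2 hjc'
    obtain ⟨b1, ⟨A, hAB, hAu⟩, b3⟩ := hB.v j hj hjc
    have e1 := hv j hj hjc
    refine ⟨?_, ⟨b.T (rst (b.u A) π) A, (tf A hAB).1, ?_⟩, ?_⟩
    · rw [e1, (p1 j hj).2.2.1]
      exact im_mono b1
    · rw [(tf A hAB).2.1, hAu, e1]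
    · intro k' hk' hkc'
      rw [e1] at hk' ⊢
      obtain ⟨k, hk, rfl⟩ := mem_imS.1 hk'
      have hkB : k ∈ b.u B := (face A hAB).2.1 (by rw [hAu]; exact hk)
      have hkc : b.Co k := (co_iff hl3 hi hkB).2 hkc'
      rw [hv k hkB hkc]
      exact im_mono (b3 k hk hkc)
  refine ⟨hOb, t2, ?_⟩
  intro σ hS
  refine ⟨?_, ?_, ?_⟩
  · refine ⟨?_, hOb, ?_⟩
    · rw [t2]
      exact q7
    · rw [t2]
      intro j' hj' hjc'
      obtain ⟨hj, hjj⟩ := p2 j' hj'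
      obtain ⟨j, hje⟩ : ∃ j, j = app (inv π) j' := ⟨_, rfl⟩
      rw [← hje] at hj hjj ⊢
      subst hjj
      have hjc : b.Co j := (co_iff hl3 hi hj).2 hjc'
      obtain ⟨v1, v2⟩ := hS.v j hj hjc
      obtain ⟨A, hAB, hAu, _⟩ := (a3 j hj hjc).1
      refine ⟨?_, v2.symm⟩
      rw [v1, ← hAu, (tf A hAB).2.2.2.2.2]
  · intro e he
    refine ⟨hi, hB, ?_⟩
    intro j hj hjc
    obtain ⟨v1, v2⟩ := hS.v j hj hjc
    refine ⟨v1, ?_⟩
    obtain ⟨_, _, _, _, _, _, _, _, s9, _⟩ := hPSJ b D (b.Wd D)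
    rw [s9 e σ _ he, s9 e σ (tm j) he, v2]
  · intro C hC hCo
    obtain ⟨f1, f2, f3, f4, f5, f6⟩ := tf C hC
    refine ⟨⟨f4, hCo, ?_⟩, f1, f2⟩
    intro j hj hjc
    have hjB : j ∈ b.u B := (face C hC).2.1 hj
    obtain ⟨v1, v2⟩ := hS.v j hjB hjc
    have hvs : vw j ⊆ b.u C := (a1 C hC).1 hCo j hj hjc
    rw [f5 j hj]
    refine ⟨?_, v2⟩
    rw [v1]
    exact im_congr fun i h => (f5 i (hvs h)).symm

end SE.UZ
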